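import Pool.Agent.V5helper49.LR.Stm2
import Pool.Agent.Cov.PNT

/-!
# LR-RUNU: runs of consecutive elements of the random sieve model in arithmetic progression are short
-/

set_option autoImplicit false

namespace Pool.Agent.V5helper23.LR

open Finset Filter Topology
open Pool.Agent.V5helper42.RS (W model W_upper W_mono)
open Pool.Agent.V5helper49.LR

/-- among `p` consecutive terms of a progression whose difference is prime to `p` all classes occur -/
lemma hit_class {p d n r a : ℕ} (hp : p.Prime) (hd : ¬ p ∣ d) :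
    ∃ i, a ≤ i ∧ i < a + p ∧ n + i * d ≡ r [MOD p] := by
  haveI : Fact p.Prime := ⟨hp⟩
  haveI : NeZero p := ⟨hp.ne_zero⟩
  have hd0 : (d : ZMod p) ≠ 0 := by
    intro h
    exact hd ((ZMod.natCast_eq_zero_iff _ _).1 h)
  let u : ZMod p := ((r : ZMod p) - n) / d - a
  refine ⟨a + u.val, by omega, by have := ZMod.val_lt u; omega, ?_⟩
  apply (ZMod.natCast_eq_natCast_iff _ _ _).1
  push_cast
  rw [ZMod.natCast_zmod_val]
  simp only [u]
  field_simp
  ring

lemma dvd_of_run {ρ : ℕ → ℕ} {k n d a p : ℕ} (h : Run (model ρ) k n d) (hp : p.Prime) (ha : a + p ≤ k)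
    (hW : ∀ i, a ≤ i → W p ≤ Real.log ((n + i * d : ℕ) : ℝ)) : p ∣ d := by
  by_contra hd
  obtain ⟨i, h1, h2, h3⟩ := hit_class (n := n) (r := ρ p) (a := a) hp hd
  exact h.2.1 i (by omega) p hp (hW i h1) h3

lemma theta_le {P d : ℕ} (hd : 0 < d) (h : ∀ p : ℕ, p.Prime → p ≤ P → p ∣ d) :
    Chebyshev.theta (P : ℝ) ≤ Real.log d := by
  rw [Chebyshev.theta_eq_log_primorial, Nat.floor_natCast]
  apply Real.log_le_log (by exact_mod_cast primorial_pos P)
  have : primorial P ∣ d := by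
    unfold primorial
    apply Finset.prod_primes_dvd
    · intro p hp
      exact (mem_filter.1 hp).2.prime
    · intro p hp
      have := mem_filter.1 hp
      exact h p this.2 (by have := mem_range.1 this.1; omega)
  exact_mod_cast Nat.le_of_dvd hd this

/-- all primes less than `k` divide the difference of a long run -/
lemma key : ∃ k₀ : ℕ, 2 ≤ k₀ ∧ ∀ ρ : ℕ → ℕ, ∀ k : ℕ, k₀ ≤ k → ∀ n d : ℕ, Run (model ρ) k n d →
    Chebyshev.theta ((k - 1 : ℕ) : ℝ) ≤ Real.log d := by
  obtain ⟨C, hC, hW⟩ := W_upper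
  set κ : ℝ := min (1 / 2) (1 / (2 * C)) with hκ
  have hκ0 : 0 < κ := lt_min (by norm_num) (by positivity)
  have hκ1 : κ ≤ 1 / 2 := min_le_left _ _
  have hκ2 : κ * C ≤ 1 / 2 := by
    have : κ ≤ 1 / (2 * C) := min_le_right _ _
    calc κ * C ≤ 1 / (2 * C) * C := by gcongr
      _ = 1 / 2 := by field_simp
  have hcast : Tendsto (fun k : ℕ => (k : ℝ)) atTop atTop := tendsto_natCast_atTop_atTop
  have hpow : Tendsto (fun k : ℕ => (k : ℝ) ^ κ) atTop atTop := (tendsto_rpow_atTop hκ0).comp hcast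
  have hP : Tendsto (fun k : ℕ => ⌊(k : ℝ) ^ κ⌋₊) atTop atTop := tendsto_nat_floor_atTop.comp hpow
  have e1 : ∀ᶠ k : ℕ in atTop, W ⌊(k : ℝ) ^ κ⌋₊ ≤ C * Real.log (⌊(k : ℝ) ^ κ⌋₊ : ℕ) := hP.eventually hW
  have e2 : ∀ᶠ k : ℕ in atTop, (1 / 2 : ℝ) * (⌊(k : ℝ) ^ κ⌋₊ : ℕ) ≤ Chebyshev.theta ((⌊(k : ℝ) ^ κ⌋₊ : ℕ) : ℝ) := by
    have h1 := Pool.Agent.Cov.PNT.theta_div_tendsto.eventually (lt_mem_nhds (show (1 / 2 : ℝ) < 1 by norm_num))
    have h2 : Tendsto (fun k : ℕ => ((⌊(k : ℝ) ^ κ⌋₊ : ℕ) : ℝ)) atTop atTop := hcast.comp hP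
    filter_upwards [h2.eventually h1, h2.eventually_gt_atTop 0] with k hk hk0
    rw [lt_div_iff₀ hk0] at hk
    exact hk.le
  have e3 : ∀ᶠ k : ℕ in atTop, W k ≤ C * Real.log k := hW
  have e4 : ∀ᶠ k : ℕ in atTop, C * Real.log k ≤ (k : ℝ) ^ κ / 4 := by
    have h1 := (isLittleO_log_rpow_atTop hκ0).bound (show (0 : ℝ) < 1 / (4 * C) by positivity)
    filter_upwards [hcast.eventually h1, hcast.eventually_ge_atTop 1] with k hk hk1
    rw [Real.norm_of_nonneg (Real.log_nonneg hk1), Real.norm_of_nonneg (by positivity)] at hk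
    calc C * Real.log k ≤ C * (1 / (4 * C) * (k : ℝ) ^ κ) := by gcongr
      _ = (k : ℝ) ^ κ / 4 := by field_simp
  have e5 : ∀ᶠ k : ℕ in atTop, (2 : ℝ) ≤ (k : ℝ) ^ κ := hpow.eventually_ge_atTop 2
  obtain ⟨k₀, hk₀⟩ := eventually_atTop.1 (e1.and (e2.and (e3.and (e4.and e5))))
  refine ⟨max k₀ 16, by omega, ?_⟩
  intro ρ k hk n d hrun
  obtain ⟨f1, f2, f3, f4, f5⟩ := hk₀ k (le_trans (le_max_left _ _) hk)
  have hk16 : 16 ≤ k := le_trans (le_max_right _ _) hk
  have hkR : (16 : ℝ) ≤ k := by exact_mod_cast hk16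
  set P : ℕ := ⌊(k : ℝ) ^ κ⌋₊ with hPdef
  have hd : 1 ≤ d := hrun.1
  have hPle : (P : ℝ) ≤ (k : ℝ) ^ κ := Nat.floor_le (by positivity)
  have hPge : (k : ℝ) ^ κ / 2 ≤ P := by
    have := Nat.lt_floor_add_one ((k : ℝ) ^ κ)
    rw [← hPdef] at this
    linarith
  have hsqrt : (k : ℝ) ^ κ ≤ k / 4 := by
    calc (k : ℝ) ^ κ ≤ (k : ℝ) ^ (1 / 2 : ℝ) := Real.rpow_le_rpow_of_exponent_le (by linarith) hκ1
      _ = Real.sqrt k := by rw [Real.sqrt_eq_rpow]
      _ ≤ k / 4 := by
        rw [Real.sqrt_le_left (by positivity)]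
        nlinarith
  -- small primes
  have s1 : ∀ p : ℕ, p.Prime → p ≤ P → p ∣ d := by
    intro p hp hpP
    apply dvd_of_run (a := k / 2) hrun hp
    · have h1 : (p : ℝ) ≤ k / 4 := by
        have : (p : ℝ) ≤ P := by exact_mod_cast hpP
        linarith
      have h2 : 4 * p ≤ k := by
        have : (4 * p : ℝ) ≤ k := by linarith
        exact_mod_cast this
      omega
    · intro i hi
      have h1 : k / 2 ≤ n + i * d := by
        have : i ≤ i * d := Nat.le_mul_of_pos_right i hd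
        omega
      have h2 : (k : ℝ) ≤ 4 * ((n + i * d : ℕ) : ℝ) := by
        have : k ≤ 4 * (n + i * d) := by omega
        exact_mod_cast this
      have hx : (4 : ℝ) ≤ ((n + i * d : ℕ) : ℝ) := by linarith
      have h3 : Real.log k ≤ 2 * Real.log ((n + i * d : ℕ) : ℝ) := by
        have : (2 : ℝ) * Real.log ((n + i * d : ℕ) : ℝ) = Real.log (((n + i * d : ℕ) : ℝ) ^ 2) := by
          rw [Real.log_pow]; norm_num
        rw [this]
        apply Real.log_le_log (by linarith)
        nlinarith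
      have hPpos : (0 : ℝ) < P := by linarith
      have h4 : Real.log P ≤ κ * Real.log k := by
        have := Real.log_le_log hPpos hPle
        rwa [Real.log_rpow (by linarith)] at this
      have hlk : 0 ≤ Real.log k := Real.log_nonneg (by linarith)
      calc W p ≤ W P := W_mono hpP
        _ ≤ C * Real.log P := f1
        _ ≤ C * (κ * Real.log k) := by gcongr
        _ = (κ * C) * Real.log k := by ring
        _ ≤ (1 / 2) * Real.log k := by gcongr
        _ ≤ Real.log ((n + i * d : ℕ) : ℝ) := by linarith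
  have s2 := theta_le hd s1
  -- all primes
  apply theta_le hd
  intro p hp hpk
  apply dvd_of_run (a := 1) hrun hp (by omega)
  intro i hi
  have h1 : d ≤ n + i * d := by
    have : 1 * d ≤ i * d := Nat.mul_le_mul_right d hi
    omega
  have h2 : Real.log d ≤ Real.log ((n + i * d : ℕ) : ℝ) :=
    Real.log_le_log (by exact_mod_cast hd) (by exact_mod_cast h1)
  calc W p ≤ W k := W_mono (by omega)
    _ ≤ C * Real.log k := f3
    _ ≤ (k : ℝ) ^ κ / 4 := f4
    _ ≤ (1 / 2 : ℝ) * P := by linarith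
    _ ≤ Real.log d := le_trans f2 s2
    _ ≤ _ := h2

theorem t_RUNU : S_RUNU := by
  intro ρ hρ hgap ε hε
  set e : ℝ := min ε 1 with he
  have he0 : 0 < e := lt_min hε (by norm_num)
  have he1 : e ≤ 1 := min_le_right _ _
  have heε : e ≤ ε := min_le_left _ _
  obtain ⟨k₀, hk₀, hkey⟩ := key
  -- the prime number theorem
  have hpnt : ∀ᶠ k : ℕ in atTop, (1 - e / 8) * k ≤ Chebyshev.theta (k : ℝ) := by
    have h1 := Pool.Agent.Cov.PNT.theta_div_tendsto.eventually (lt_mem_nhds (show (1 - e / 8 : ℝ) < 1 by linarith))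
    have hcast : Tendsto (fun k : ℕ => (k : ℝ)) atTop atTop := tendsto_natCast_atTop_atTop
    filter_upwards [hcast.eventually h1, hcast.eventually_gt_atTop 0] with k hk hk0
    rw [lt_div_iff₀ hk0] at hk
    exact hk.le
  obtain ⟨k₁, hk₁⟩ := eventually_atTop.1 hpnt
  obtain ⟨m₀, hm₀⟩ := eventually_atTop.1 (hgap (e / 8) (by positivity))
  set M : ℝ := m₀ + Real.log m₀ ^ (2 + e / 8) with hM
  have hM0 : 0 ≤ M := by positivity
  have hll : Tendsto (fun x : ℝ => Real.log (Real.log x)) atTop atTop := Real.tendsto_log_atTop.comp Real.tendsto_log_atTop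
  have hpw : Tendsto (fun x : ℝ => Real.log x ^ (e / 8)) atTop atTop :=
    (tendsto_rpow_atTop (by positivity)).comp Real.tendsto_log_atTop
  filter_upwards [hll.eventually_ge_atTop (8 / (3 * e)), hll.eventually_ge_atTop ((k₀ : ℝ) + k₁ + 1),
    hpw.eventually_ge_atTop (1 + M), Real.tendsto_log_atTop.eventually_ge_atTop 1, eventually_ge_atTop (1 : ℝ)]
    with x g1 g2 g3 g4 g5
  intro k n d hrun hx
  have hLL : 0 < Real.log (Real.log x) := lt_of_lt_of_le (by positivity) g1
  by_cases hk : k < k₀ + k₁ + 1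
  · have h1 : (k : ℝ) ≤ k₀ + k₁ + 1 := by exact_mod_cast hk.le
    nlinarith
  push Not at hk
  have hth := hkey ρ k (by omega) n d hrun
  have hd : 1 ≤ d := hrun.1
  have hdR : (1 : ℝ) ≤ d := by exact_mod_cast hd
  have hpn := hk₁ (k - 1) (by omega)
  have hnx : (n : ℝ) ≤ x := by
    refine le_trans ?_ hx
    exact_mod_cast Nat.le_add_right _ _
  have hnd : n + d ≤ n + (k - 1) * d := by
    have : 1 * d ≤ (k - 1) * d := Nat.mul_le_mul_right d (by omega)
    omega
  -- the bound for the difference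
  have hdle : (d : ℝ) ≤ Real.log x ^ (2 + e / 8) + M := by
    obtain ⟨m, a1, a2, a3⟩ := hm₀ (max n m₀) (le_max_right _ _)
    have hmd : n + d ≤ m := by
      by_contra hlt
      push Not at hlt
      obtain ⟨i, hi, hmi⟩ := hrun.2.2 m a3 (lt_of_le_of_lt (le_max_left _ _) a1) (lt_of_lt_of_le hlt hnd)
      have hi0 : 1 ≤ i := by
        rcases Nat.eq_zero_or_pos i with h0 | h0
        · exfalso
          have : n < m := lt_of_le_of_lt (le_max_left _ _) a1
          rw [hmi, h0] at this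
          omega
        · exact h0
      have : 1 * d ≤ i * d := Nat.mul_le_mul_right d hi0
      omega
    have hmdR : (n : ℝ) + d ≤ m := by exact_mod_cast hmd
    rcases le_total m₀ n with hn | hn
    · rw [max_eq_left hn] at a2
      have hlog : Real.log n ^ (2 + e / 8) ≤ Real.log x ^ (2 + e / 8) := by
        apply Real.rpow_le_rpow (Real.log_natCast_nonneg n) _ (by positivity)
        rcases Nat.eq_zero_or_pos n with h0 | h0
        · rw [h0]; simp; linarith
        · exact Real.log_le_log (by exact_mod_cast h0) hnx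
      linarith
    · rw [max_eq_right hn] at a2
      have : 0 ≤ Real.log x ^ (2 + e / 8) := by positivity
      have hn0 : (0 : ℝ) ≤ n := by positivity
      linarith
  have hdle2 : (d : ℝ) ≤ Real.log x ^ (2 + e / 4) := by
    have h1 : 1 ≤ Real.log x ^ (2 + e / 8) := Real.one_le_rpow g4 (by positivity)
    calc (d : ℝ) ≤ Real.log x ^ (2 + e / 8) + M := hdle
      _ ≤ Real.log x ^ (2 + e / 8) * (1 + M) := by nlinarith
      _ ≤ Real.log x ^ (2 + e / 8) * Real.log x ^ (e / 8) := by gcongr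
      _ = Real.log x ^ (2 + e / 4) := by
        rw [← Real.rpow_add (by linarith)]
        congr 1
        ring
  have hlogd : Real.log d ≤ (2 + e / 4) * Real.log (Real.log x) := by
    have := Real.log_le_log (by linarith) hdle2
    rwa [Real.log_rpow (by linarith)] at this
  have hk1 : ((k - 1 : ℕ) : ℝ) = k - 1 := by
    rw [Nat.cast_sub (by omega)]; simp
  rw [hk1] at hpn hth
  have h2 : (1 - e / 8) * (k - 1) ≤ (2 + e / 4) * Real.log (Real.log x) := le_trans hpn (le_trans hth hlogd)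
  have h3 : (1 - e / 8) * k ≤ (2 + e / 4) * Real.log (Real.log x) + 1 := by nlinarith
  have h4 : 1 ≤ (3 * e / 8) * Real.log (Real.log x) := by
    calc (1 : ℝ) = (3 * e / 8) * (8 / (3 * e)) := by field_simp
      _ ≤ _ := by gcongr
  have h5 : (1 - e / 8) * k ≤ (1 - e / 8) * ((2 + e) * Real.log (Real.log x)) := by
    have h6 : (2 + e / 4) + 3 * e / 8 ≤ (1 - e / 8) * (2 + e) := by nlinarith
    calc (1 - e / 8) * k ≤ (2 + e / 4) * Real.log (Real.log x) + 1 := h3
      _ ≤ ((2 + e / 4) + 3 * e / 8) * Real.log (Real.log x) := by linarith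
      _ ≤ ((1 - e / 8) * (2 + e)) * Real.log (Real.log x) := by gcongr
      _ = _ := by ring
  have h7 : (k : ℝ) ≤ (2 + e) * Real.log (Real.log x) := le_of_mul_le_mul_left h5 (by linarith)
  calc (k : ℝ) ≤ (2 + e) * Real.log (Real.log x) := h7
    _ ≤ (2 + ε) * Real.log (Real.log x) := by gcongr

end Pool.Agent.V5helper23.LR
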